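import Pool.Agent.Helper50.PE.St

/-!
Module C8: linear extensions of ordinal sums.
-/

set_option autoImplicit false

namespace Pool.Agent.Helper14.PE

open Finset
open Pool.Agent.Helper16.PEul (IsExt des leN numExt)
open Pool.Agent.Helper50.PE

theorem des_append (y x : ℕ) (m : List ℕ) : ∀ l : List ℕ,
    des ((l ++ [y]) ++ (x :: m)) = des (l ++ [y]) + (if y < x then 1 else 0) + des (x :: m) := by
  intro l
  induction l with
  | nil => simp [des]
  | cons a t ih =>
    cases t with
    | nil => simp [des]; ring
    | cons b t =>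
      have e1 : ((a :: b :: t) ++ [y]) ++ (x :: m) = a :: b :: ((t ++ [y]) ++ (x :: m)) := by simp
      have e2 : ((b :: t) ++ [y]) ++ (x :: m) = b :: ((t ++ [y]) ++ (x :: m)) := by simp
      have e3 : (a :: b :: t) ++ [y] = a :: b :: (t ++ [y]) := by simp
      have e4 : (b :: t) ++ [y] = b :: (t ++ [y]) := by simp
      rw [e1, des, ← e2, ih, e3, e4, des]
      ring

theorem split_list (S T : Finset ℕ) (hd : Disjoint S T) : ∀ w : List ℕ,
    w.Pairwise (fun x y => ¬ (x ∈ S ∧ y ∈ T)) → (∀ x ∈ w, x ∈ S ∨ x ∈ T) →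
    w.filter (fun x => decide (x ∈ T)) ++ w.filter (fun x => decide (x ∈ S)) = w := by
  intro w
  induction w with
  | nil => intro _ _; rfl
  | cons a t ih =>
    intro hp hm
    rw [List.pairwise_cons] at hp
    have ih' := ih hp.2 (fun x hx => hm x (List.mem_cons_of_mem _ hx))
    rcases hm a List.mem_cons_self with ha | ha
    · have ha' : a ∉ T := fun h => (Finset.disjoint_left.1 hd) ha h
      have hT : (a :: t).filter (fun x => decide (x ∈ T)) = [] := by
        rw [List.filter_eq_nil_iff]
        intro x hx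
        rw [List.mem_cons] at hx
        rcases hx with rfl | hx
        · simpa using ha'
        · have := hp.1 x hx
          simp only [decide_eq_true_eq]
          exact fun h => this ⟨ha, h⟩
      have hS : (a :: t).filter (fun x => decide (x ∈ S)) = a :: t := by
        rw [List.filter_eq_self]
        intro x hx
        rw [List.mem_cons] at hx
        rcases hx with rfl | hx
        · simpa using ha
        · simp only [decide_eq_true_eq]
          rcases hm x (List.mem_cons_of_mem _ hx) with h | h
          · exact h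
          · exact absurd ⟨ha, h⟩ (hp.1 x hx)
      rw [hT, hS, List.nil_append]
    · have ha' : a ∉ S := fun h => (Finset.disjoint_left.1 hd) h ha
      rw [List.filter_cons_of_pos (by simpa using ha), List.filter_cons_of_neg (by simpa using ha'),
        List.cons_append, ih']

theorem isExt_filter {le : ℕ → ℕ → Prop} {U S : Finset ℕ} {w : List ℕ} (h : IsExt le U w)
    (hS : S ⊆ U) : IsExt le S (w.filter (fun x => decide (x ∈ S))) := by
  refine ⟨h.nodup.filter _, ?_, h.ord.filter _⟩
  ext x
  rw [List.mem_toFinset, List.mem_filter, ← List.mem_toFinset, h.set]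
  simp only [decide_eq_true_eq]
  exact ⟨fun h => h.2, fun h => ⟨hS h, h⟩⟩

theorem isExt_append {le : ℕ → ℕ → Prop} {S T : Finset ℕ} (hpo : PO le (S ∪ T))
    (hd : Disjoint S T) (hle : ∀ x ∈ S, ∀ y ∈ T, le x y) {l m : List ℕ} (hl : IsExt le T l)
    (hm : IsExt le S m) : IsExt le (S ∪ T) (l ++ m) := by
  have memT : ∀ x ∈ l, x ∈ T := fun x hx => by rw [← hl.set, List.mem_toFinset]; exact hx
  have memS : ∀ x ∈ m, x ∈ S := fun x hx => by rw [← hm.set, List.mem_toFinset]; exact hx
  refine ⟨?_, ?_, ?_⟩
  · rw [List.nodup_append]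
    refine ⟨hl.nodup, hm.nodup, ?_⟩
    intro a ha b hb hab
    subst hab
    exact (Finset.disjoint_left.1 hd) (memS _ hb) (memT _ ha)
  · rw [List.toFinset_append, hl.set, hm.set, Finset.union_comm]
  · rw [List.pairwise_append]
    refine ⟨hl.ord, hm.ord, ?_⟩
    intro x hx y hy hxy
    have h1 := memT _ hx
    have h2 := memS _ hy
    have h3 := hle y h2 x h1
    have h4 := hpo.anti x (Finset.mem_union_right _ h1) y (Finset.mem_union_left _ h2) hxy h3
    subst h4
    exact (Finset.disjoint_left.1 hd) h2 h1

theorem des_junction {le : ℕ → ℕ → Prop} {S T : Finset ℕ} {δ : ℕ}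
    (hS : S.Nonempty) (hT : T.Nonempty)
    (hδ : ∀ x ∈ S, (∀ z ∈ S, le x z → z = x) → ∀ y ∈ T, (∀ z ∈ T, le z y → z = y) →
      (if y < x then 1 else 0) = δ) {l m : List ℕ} (hl : IsExt le T l) (hm : IsExt le S m) :
    des (l ++ m) = des l + δ + des m := by
  have memT : ∀ x, x ∈ l ↔ x ∈ T := fun x => by rw [← hl.set, List.mem_toFinset]
  have memS : ∀ x, x ∈ m ↔ x ∈ S := fun x => by rw [← hm.set, List.mem_toFinset]
  have hlne : l ≠ [] := by
    rintro rfl
    obtain ⟨y, hy⟩ := hT
    exact absurd ((memT y).2 hy) (by simp)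
  have hmne : m ≠ [] := by
    rintro rfl
    obtain ⟨y, hy⟩ := hS
    exact absurd ((memS y).2 hy) (by simp)
  obtain ⟨l', y, rfl⟩ : ∃ l' y, l = l' ++ [y] :=
    ⟨l.dropLast, l.getLast hlne, (List.dropLast_append_getLast hlne).symm⟩
  obtain ⟨x, m', rfl⟩ : ∃ x m', m = x :: m' := List.exists_cons_of_ne_nil hmne
  rw [des_append, hδ x ((memS x).1 List.mem_cons_self) ?_ y ((memT y).1 (by simp)) ?_]
  · intro z hz hxz
    have hz' := (memS z).2 hz
    rw [List.mem_cons] at hz'
    rcases hz' with h | h
    · exact h
    · exact absurd hxz ((List.pairwise_cons.1 hm.ord).1 z h)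
  · intro z hz hzy
    have hz' := (memT z).2 hz
    rw [List.mem_append, List.mem_singleton] at hz'
    rcases hz' with h | h
    · exact absurd hzy ((List.pairwise_append.1 hl.ord).2.2 z h y (List.mem_singleton_self _))
    · exact h

theorem pf_Ord : StOrd := by
  classical
  intro le S T δ hpo hd hS hT hle hδ k
  have key : ∀ w, IsExt le (S ∪ T) w → ∃ l m, IsExt le T l ∧ IsExt le S m ∧ l ++ m = w := by
    intro w hw
    refine ⟨_, _, isExt_filter hw Finset.subset_union_right,
      isExt_filter hw Finset.subset_union_left, ?_⟩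
    refine split_list S T hd w ?_ ?_
    · exact hw.ord.imp (fun {a b} h h' => h (hle a h'.1 b h'.2))
    · intro x hx
      rw [← List.mem_toFinset, hw.set, Finset.mem_union] at hx
      exact hx
  constructor
  · unfold nd
    rw [show (∑ i ∈ range (k + 1), ((exts le S).filter (fun l => des l = i)).card *
        ((exts le T).filter (fun l => des l = k - i)).card) =
        ((range (k + 1)).sigma (fun i => ((exts le S).filter (fun l => des l = i)) ×ˢ
          ((exts le T).filter (fun l => des l = k - i)))).card by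
      rw [Finset.card_sigma]
      exact Finset.sum_congr rfl fun i _ => by rw [Finset.card_product]]
    symm
    refine Finset.card_bij (fun p _ => p.2.2 ++ p.2.1) ?_ ?_ ?_
    · rintro ⟨i, m, l⟩ h
      simp only [Finset.mem_sigma, Finset.mem_range, Finset.mem_product, Finset.mem_filter,
        mem_exts] at h ⊢
      obtain ⟨h1, ⟨h2, h3⟩, h4, h5⟩ := h
      refine ⟨isExt_append hpo hd hle h4 h2, ?_⟩
      rw [des_junction hS hT hδ h4 h2]
      omega
    · rintro ⟨i, m, l⟩ h ⟨i', m', l'⟩ h' he
      simp only [Finset.mem_sigma, Finset.mem_range, Finset.mem_product, Finset.mem_filter,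
        mem_exts] at h h' he
      obtain ⟨h1, ⟨h2, h3⟩, h4, h5⟩ := h
      obtain ⟨h1', ⟨h2', h3'⟩, h4', h5'⟩ := h'
      have hlen : l.length = l'.length := by
        rw [← List.toFinset_card_of_nodup h4.nodup, ← List.toFinset_card_of_nodup h4'.nodup,
          h4.set, h4'.set]
      obtain ⟨e1, e2⟩ := List.append_inj he hlen
      subst e1 e2
      have : i = i' := by omega
      subst this
      rfl
    · intro w hw
      rw [Finset.mem_filter, mem_exts] at hw
      obtain ⟨hw1, hw2⟩ := hw
      obtain ⟨l, m, hl, hm, rfl⟩ := key w hw1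
      rw [des_junction hS hT hδ hl hm] at hw2
      refine ⟨⟨des m, m, l⟩, ?_, rfl⟩
      simp only [Finset.mem_sigma, Finset.mem_range, Finset.mem_product, Finset.mem_filter,
        mem_exts]
      exact ⟨by omega, ⟨hm, trivial⟩, hl, by omega⟩
  · intro h1
    unfold nd
    rw [Finset.card_eq_zero, Finset.filter_eq_empty_iff]
    intro w hw hw0
    rw [mem_exts] at hw
    obtain ⟨l, m, hl, hm, rfl⟩ := key w hw
    rw [des_junction hS hT hδ hl hm] at hw0
    omega

end Pool.Agent.Helper14.PE
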