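import Pool.Agent.Helper50.PE.St

/-!
Module C7: strictly monotone relabelling.
-/

set_option autoImplicit false

namespace Pool.Agent.Helper14.PE

open Finset
open Pool.Agent.Helper16.PEul (IsExt des leN numExt des_reverse_ofFn)
open Pool.Agent.Helper50.PE

/-- the relabelled word of a permutation -/
def wordF {n : ℕ} (f : Fin n → ℕ) (σ : Equiv.Perm (Fin n)) : List ℕ :=
  (List.ofFn (fun i => f (σ i))).reverse

theorem wordF_injective {n : ℕ} {f : Fin n → ℕ} (hf : Function.Injective f) :
    Function.Injective (wordF f) := by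
  intro σ τ h
  unfold wordF at h
  have h1 := List.reverse_injective h
  have h2 := List.ofFn_injective h1
  ext i
  exact congrArg Fin.val (hf (congrFun h2 i))

theorem isExt_wordF {n : ℕ} {le : ℕ → ℕ → Prop} {f : Fin n → ℕ} (hf : Function.Injective f)
    (σ : Equiv.Perm (Fin n))
    (h : ∀ i j : Fin n, le (f (σ i)) (f (σ j)) → σ i ≠ σ j → i < j) :
    IsExt le (univ.image f) (wordF f σ) := by
  refine ⟨?_, ?_, ?_⟩
  · unfold wordF
    rw [List.nodup_reverse, List.nodup_ofFn]
    exact fun i j hij => σ.injective (hf hij)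
  · ext x
    unfold wordF
    rw [List.mem_toFinset, List.mem_reverse, List.mem_ofFn, Finset.mem_image]
    constructor
    · rintro ⟨i, rfl⟩
      exact ⟨σ i, Finset.mem_univ _, rfl⟩
    · rintro ⟨i, _, rfl⟩
      exact ⟨σ.symm i, by simp⟩
  · unfold wordF
    rw [List.pairwise_reverse, List.pairwise_ofFn]
    intro i j hij hle
    have := h j i hle (fun e => hij.ne (σ.injective e).symm)
    exact absurd this (not_lt.2 hij.le)

theorem exists_permF {n : ℕ} {le : ℕ → ℕ → Prop} {f : Fin n → ℕ} (hf : Function.Injective f)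
    {l : List ℕ} (h : IsExt le (univ.image f) l) :
    ∃ σ : Equiv.Perm (Fin n), (∀ i j : Fin n, le (f (σ i)) (f (σ j)) → σ i ≠ σ j → i < j) ∧
      wordF f σ = l := by
  classical
  have hlen : l.reverse.length = n := by
    rw [List.length_reverse, ← List.toFinset_card_of_nodup h.nodup, h.set,
      Finset.card_image_of_injective _ hf, Finset.card_univ, Fintype.card_fin]
  have hex : ∀ i : Fin n, ∃ j : Fin n, f j = l.reverse[i.val]'(by rw [hlen]; exact i.2) := by
    intro i
    have h1 : l.reverse[i.val]'(by rw [hlen]; exact i.2) ∈ l.toFinset := by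
      rw [List.mem_toFinset, ← List.mem_reverse]
      exact List.getElem_mem _
    rw [h.set, Finset.mem_image] at h1
    obtain ⟨j, _, hj⟩ := h1
    exact ⟨j, hj⟩
  choose g hg using hex
  have hnd : l.reverse.Nodup := List.nodup_reverse.2 h.nodup
  have hgi : Function.Injective g := by
    intro i j hij
    have h1 : f (g i) = f (g j) := by rw [hij]
    rw [hg, hg] at h1
    exact Fin.ext ((List.Nodup.getElem_inj_iff hnd).1 h1)
  let σ : Equiv.Perm (Fin n) := Equiv.ofBijective g (Finite.injective_iff_bijective.1 hgi)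
  have hσ : wordF f σ = l := by
    unfold wordF
    rw [List.reverse_eq_iff]
    apply List.ext_getElem
    · rw [List.length_ofFn, hlen]
    · intro i h1 h2
      rw [List.getElem_ofFn]
      exact hg _
  refine ⟨σ, ?_, hσ⟩
  intro i j hle hne
  by_contra hcon
  have hij : j < i := lt_of_le_of_ne (not_lt.1 hcon) (fun e => hne (by rw [e]))
  have h1 := h.ord
  rw [← hσ] at h1
  unfold wordF at h1
  rw [List.pairwise_reverse, List.pairwise_ofFn] at h1
  exact h1 hij hle

theorem pf_Relab : StRelab := by
  classical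
  intro n le f hf k
  unfold nd numExt
  rw [← Finset.card_image_of_injective _ (wordF_injective hf.injective)]
  congr 1
  ext l
  rw [Finset.mem_filter, mem_exts, Finset.mem_image]
  have hdes : ∀ σ : Equiv.Perm (Fin n), des (wordF f σ) =
      ((Finset.univ : Finset (Fin n × Fin n)).filter
        (fun p => p.2.val = p.1.val + 1 ∧ σ p.2 < σ p.1)).card := by
    intro σ
    unfold wordF
    rw [des_reverse_ofFn]
    congr 1
    ext p
    simp only [Finset.mem_filter, Finset.mem_univ, true_and, hf.lt_iff_lt]
  constructor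
  · rintro ⟨h1, h2⟩
    obtain ⟨σ, hσ, rfl⟩ := exists_permF hf.injective h1
    refine ⟨σ, Finset.mem_filter.2 ⟨Finset.mem_univ _, hσ, ?_⟩, rfl⟩
    rw [← hdes]
    exact h2
  · rintro ⟨σ, hσ, rfl⟩
    rw [Finset.mem_filter] at hσ
    exact ⟨isExt_wordF hf.injective σ hσ.2.1, by rw [hdes]; exact hσ.2.2⟩

end Pool.Agent.Helper14.PE
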